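import Pool.Agent.Helper19.UB.Struct

/-! MP_f69198_co: structure theorem for union bases, main assembly. -/

namespace Pool.Agent.Helper19.UB

open Finset Pool.Agent.Lead.UB

open Pool.Agent.Helper43.UB (qr_symm)

open scoped Classical in
lemma qdeg_mono {N : ℕ} (R : Fs N → Fs N → Prop) {ε ε' : ℝ} (h : ε ≤ ε') (A : Fs N) :
    qdeg R ε A ≤ qdeg R ε' A := by
  unfold qdeg
  apply card_le_card
  intro B hB
  rw [mem_filter] at hB ⊢
  exact ⟨hB.1, hB.2.1, qr_mono h hB.2.2⟩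

open scoped Classical in
/-- Members with large quasi-random degree. -/
noncomputable def lev {N : ℕ} (F : Finset (Fs N)) (R : Fs N → Fs N → Prop) (γ ε : ℝ) :
    Finset (Fs N) := F.filter fun A => γ * #F ≤ qdeg R ε A

open scoped Classical in
/-- The combinatorial core: one step of the tolerance ladder. -/
lemma core {N : ℕ} {F : Finset (Fs N)} {R : Fs N → Fs N → Prop}
    (hRF : ∀ A B, R A B → A ∈ F ∧ B ∈ F) (hRs : ∀ A B, R A B → R B A)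
    (hdet : ∀ A B A' B', R A B → R A' B' → A ∪ B = A' ∪ B' →
      (A = A' ∧ B = B') ∨ (A = B' ∧ B = A'))
    {ε₁ ε₂ ε η γ δ μ : ℝ} (hε : 0 < ε₁) (hη : 0 < η) (hγ : 0 < γ) (hN : 0 < N)
    (hsq : 2 ^ N ≤ #F ^ 2) (h12 : 2 * ε₁ + 5 * η ≤ ε₂) (h23 : ε₂ ≤ ε)
    (hmid : (#(lev F R γ ε₂ \ lev F R γ ε₁) : ℝ) ≤ μ * #F)
    (hbook : (#{p : Fs N × Fs N | (R p.1 p.2 ∧ ¬ QuasiRandom ε₂ p.1 p.2) ∧
      p.1 ∈ F \ lev F R γ ε₂ ∧ p.2 ∈ F \ lev F R γ ε₂} : ℝ) ≤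
        (#(F \ lev F R γ ε₂) : ℝ) ^ 2 / 2 + δ * (#F : ℝ) ^ 2) :
    (#{p : Fs N × Fs N | R p.1 p.2} : ℝ) ≤ (#(lev F R γ ε₁) : ℝ) ^ 2 +
      (#(F \ lev F R γ ε₂) : ℝ) ^ 2 / 2 +
      (2 * μ + 2 * γ + 3 / (γ * η ^ 2 * N) + δ) * (#F : ℝ) ^ 2 ∧
    (#{p : Fs N × Fs N | R p.1 p.2 ∧ ¬ QuasiRandom ε p.1 p.2} : ℝ) ≤
      (#(F \ lev F R γ ε₂) : ℝ) ^ 2 / 2 +
      (2 * μ + 2 * γ + 3 / (γ * η ^ 2 * N) + δ) * (#F : ℝ) ^ 2 := by
  have hNr : (0 : ℝ) < N := Nat.cast_pos.2 hN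
  have hm0 : 0 ≤ (#F : ℝ) := Nat.cast_nonneg _
  have hε2 : ε₁ ≤ ε₂ := by linarith
  obtain ⟨M, hM⟩ : ∃ M, M = lev F R γ ε₂ \ lev F R γ ε₁ := ⟨_, rfl⟩
  obtain ⟨F0, hF0⟩ : ∃ F0, F0 = lev F R γ ε₁ := ⟨_, rfl⟩
  obtain ⟨F1, hF1⟩ : ∃ F1, F1 = F \ lev F R γ ε₂ := ⟨_, rfl⟩
  rw [← hM] at hmid
  rw [← hF1] at hbook ⊢
  rw [← hF0]
  have hcov : ∀ A ∈ F, A ∈ F0 ∨ A ∈ M ∨ A ∈ F1 := by
    intro A hA
    rw [hF0, hM, hF1, mem_sdiff, mem_sdiff]
    by_cases k1 : A ∈ lev F R γ ε₁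
    · exact Or.inl k1
    · by_cases k2 : A ∈ lev F R γ ε₂
      · exact Or.inr (Or.inl ⟨k2, k1⟩)
      · exact Or.inr (Or.inr ⟨hA, k2⟩)
  -- the quasi-random edges at `F1`
  have hPQ : ∀ A ∈ F1, (#{B : Fs N | R A B ∧ QuasiRandom ε₂ A B} : ℝ) ≤ γ * #F := by
    intro A hA
    rw [hF1, mem_sdiff, lev, mem_filter] at hA
    have := hA.2
    push Not at this
    exact (this hA.1).le
  have hF1m : (#F1 : ℝ) ≤ #F := by
    rw [hF1]
    exact_mod_cast card_le_card sdiff_subset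
  set PQ : Finset (Fs N × Fs N) := {p | (R p.1 p.2 ∧ QuasiRandom ε₂ p.1 p.2) ∧ p.1 ∈ F1} with hPQd
  have cPQ : (#PQ : ℝ) ≤ γ * (#F : ℝ) ^ 2 := by
    have e1 : #PQ = ∑ A ∈ F1, #{q ∈ PQ | q.1 = A} := by
      apply card_eq_sum_card_fiberwise
      intro q hq
      rw [mem_coe, hPQd, mem_filter] at hq
      exact hq.2.2
    rw [e1]
    push_cast
    have e2 : ∀ A ∈ F1, (#{q ∈ PQ | q.1 = A} : ℝ) ≤ γ * #F := by
      intro A hA
      refine le_trans ?_ (hPQ A hA)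
      rw [Nat.cast_le]
      refine card_le_card_of_injOn (fun q => q.2) ?_ ?_
      · intro q hq
        rw [mem_coe, mem_filter, hPQd, mem_filter] at hq
        rw [mem_coe, mem_filter]
        have := hq.1.2.1
        rw [hq.2] at this
        exact ⟨mem_univ _, this⟩
      · intro q hq q' hq' h
        rw [mem_coe, mem_filter] at hq hq'
        exact Prod.ext (hq.2.trans hq'.2.symm) h
    refine (sum_le_sum e2).trans ?_
    rw [sum_const, nsmul_eq_mul]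
    have h1 : (0 : ℝ) ≤ γ * #F := by positivity
    calc (#F1 : ℝ) * (γ * #F) ≤ #F * (γ * #F) := mul_le_mul_of_nonneg_right hF1m h1
      _ = _ := by ring
  set PQ' : Finset (Fs N × Fs N) := {p | (R p.1 p.2 ∧ QuasiRandom ε₂ p.1 p.2) ∧ p.2 ∈ F1} with hPQd'
  have cPQ' : #PQ' ≤ #PQ := by
    refine card_le_card_of_injOn Prod.swap ?_ (Prod.swap_injective.injOn)
    intro q hq
    rw [mem_coe, hPQd', mem_filter] at hq
    rw [mem_coe, hPQd, mem_filter]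
    exact ⟨mem_univ _, ⟨hRs _ _ hq.2.1.1, qr_symm hq.2.1.2⟩, hq.2.2⟩
  -- the edges at `F0` which are not quasi-random
  set PN : Finset (Fs N × Fs N) := {p | R p.1 p.2 ∧ γ * #F ≤ qdeg R ε₁ p.1 ∧
      ¬ QuasiRandom (2 * ε₁ + 5 * η) p.1 p.2} with hPN
  have cPN : (#PN : ℝ) ≤ 3 * (#F : ℝ) ^ 2 / (2 * (γ * η ^ 2 * N)) :=
    few_pairs hRF hdet hε hη hγ hN hsq
  set PN' : Finset (Fs N × Fs N) := {p | R p.1 p.2 ∧ γ * #F ≤ qdeg R ε₁ p.2 ∧
      ¬ QuasiRandom (2 * ε₁ + 5 * η) p.1 p.2} with hPN'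
  have cPN' : #PN' ≤ #PN := by
    refine card_le_card_of_injOn Prod.swap ?_ (Prod.swap_injective.injOn)
    intro q hq
    rw [mem_coe, hPN', mem_filter] at hq
    rw [mem_coe, hPN, mem_filter]
    exact ⟨mem_univ _, hRs _ _ hq.2.1, hq.2.2.1, fun h => hq.2.2.2 (qr_symm h)⟩
  set E11 : Finset (Fs N × Fs N) := {p | (R p.1 p.2 ∧ ¬ QuasiRandom ε₂ p.1 p.2) ∧
      p.1 ∈ F1 ∧ p.2 ∈ F1} with hE11
  have hMM : (#(M ×ˢ F) : ℝ) ≤ μ * (#F : ℝ) ^ 2 := by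
    rw [card_product]
    push_cast
    calc (#M : ℝ) * #F ≤ (μ * #F) * #F := mul_le_mul_of_nonneg_right hmid hm0
      _ = _ := by ring
  have hMM' : (#(F ×ˢ M) : ℝ) ≤ μ * (#F : ℝ) ^ 2 := by
    rw [card_product, mul_comm, ← card_product]
    exact hMM
  -- the covering of the non quasi-random edges
  have hsub2 : ∀ p : Fs N × Fs N, R p.1 p.2 → ¬ QuasiRandom ε₂ p.1 p.2 →
      p ∈ (M ×ˢ F) ∪ (F ×ˢ M) ∪ PN ∪ PN' ∪ E11 := by
    intro p hp hq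
    have hpF := hRF _ _ hp
    rw [mem_union, mem_union, mem_union, mem_union]
    rcases hcov _ hpF.1 with h1 | h1 | h1
    · refine Or.inl (Or.inl (Or.inr ?_))
      rw [hPN, mem_filter]
      rw [hF0, lev, mem_filter] at h1
      exact ⟨mem_univ _, hp, h1.2, fun h => hq (qr_mono h12 h)⟩
    · exact Or.inl (Or.inl (Or.inl (Or.inl (mem_product.2 ⟨h1, hpF.2⟩))))
    · rcases hcov _ hpF.2 with h2 | h2 | h2
      · refine Or.inl (Or.inr ?_)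
        rw [hPN', mem_filter]
        rw [hF0, lev, mem_filter] at h2
        exact ⟨mem_univ _, hp, h2.2, fun h => hq (qr_mono h12 h)⟩
      · exact Or.inl (Or.inl (Or.inl (Or.inr (mem_product.2 ⟨hpF.1, h2⟩))))
      · refine Or.inr ?_
        rw [hE11, mem_filter]
        exact ⟨mem_univ _, ⟨hp, hq⟩, h1, h2⟩
  have hsub1 : ({p : Fs N × Fs N | R p.1 p.2} : Finset (Fs N × Fs N)) ⊆
      (F0 ×ˢ F0) ∪ PQ ∪ PQ' ∪ ((M ×ˢ F) ∪ (F ×ˢ M) ∪ PN ∪ PN' ∪ E11) := by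
    intro p hp
    rw [mem_filter] at hp
    have hp := hp.2
    have hpF := hRF _ _ hp
    rw [mem_union, mem_union, mem_union]
    by_cases hq : QuasiRandom ε₂ p.1 p.2
    · rcases hcov _ hpF.1 with h1 | h1 | h1
      · rcases hcov _ hpF.2 with h2 | h2 | h2
        · exact Or.inl (Or.inl (Or.inl (mem_product.2 ⟨h1, h2⟩)))
        · refine Or.inr ?_
          rw [mem_union, mem_union, mem_union, mem_union]
          exact Or.inl (Or.inl (Or.inl (Or.inr (mem_product.2 ⟨hpF.1, h2⟩))))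
        · refine Or.inl (Or.inr ?_)
          rw [hPQd', mem_filter]
          exact ⟨mem_univ _, ⟨hp, hq⟩, h2⟩
      · refine Or.inr ?_
        rw [mem_union, mem_union, mem_union, mem_union]
        exact Or.inl (Or.inl (Or.inl (Or.inl (mem_product.2 ⟨h1, hpF.2⟩))))
      · refine Or.inl (Or.inl (Or.inr ?_))
        rw [hPQd, mem_filter]
        exact ⟨mem_univ _, ⟨hp, hq⟩, h1⟩
    · exact Or.inr (hsub2 p hp hq)
  have cU : (#((M ×ˢ F) ∪ (F ×ˢ M) ∪ PN ∪ PN' ∪ E11) : ℝ) ≤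
      #(M ×ˢ F) + #(F ×ˢ M) + #PN + #PN' + #E11 := by
    have a1 := card_union_le ((M ×ˢ F) ∪ (F ×ˢ M) ∪ PN ∪ PN') E11
    have a2 := card_union_le ((M ×ˢ F) ∪ (F ×ˢ M) ∪ PN) PN'
    have a3 := card_union_le ((M ×ˢ F) ∪ (F ×ˢ M)) PN
    have a4 := card_union_le (M ×ˢ F) (F ×ˢ M)
    have : #((M ×ˢ F) ∪ (F ×ˢ M) ∪ PN ∪ PN' ∪ E11) ≤
      #(M ×ˢ F) + #(F ×ˢ M) + #PN + #PN' + #E11 := by omega
    exact_mod_cast this
  have cPN2 : (#PN' : ℝ) ≤ #PN := by exact_mod_cast cPN'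
  have cPQ2 : (#PQ' : ℝ) ≤ #PQ := by exact_mod_cast cPQ'
  have e3 : 3 * (#F : ℝ) ^ 2 / (2 * (γ * η ^ 2 * N)) =
      3 / (γ * η ^ 2 * N) * (#F : ℝ) ^ 2 / 2 := by
    field_simp
  rw [e3] at cPN
  have hm2 : 0 ≤ γ * (#F : ℝ) ^ 2 := by positivity
  constructor
  · have a1 := card_le_card hsub1
    have a2 := card_union_le ((F0 ×ˢ F0) ∪ PQ ∪ PQ') ((M ×ˢ F) ∪ (F ×ˢ M) ∪ PN ∪ PN' ∪ E11)
    have a3 := card_union_le ((F0 ×ˢ F0) ∪ PQ) PQ'
    have a4 := card_union_le (F0 ×ˢ F0) PQ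
    have a5 : (#{p : Fs N × Fs N | R p.1 p.2} : ℝ) ≤
        #(F0 ×ˢ F0) + #PQ + #PQ' + #((M ×ˢ F) ∪ (F ×ˢ M) ∪ PN ∪ PN' ∪ E11) := by
      have : #{p : Fs N × Fs N | R p.1 p.2} ≤
        #(F0 ×ˢ F0) + #PQ + #PQ' + #((M ×ˢ F) ∪ (F ×ˢ M) ∪ PN ∪ PN' ∪ E11) := by omega
      exact_mod_cast this
    have a6 : (#(F0 ×ˢ F0) : ℝ) = (#F0 : ℝ) ^ 2 := by
      rw [card_product]; push_cast; ring
    rw [a6] at a5
    have e5 : (2 * μ + 2 * γ + 3 / (γ * η ^ 2 * N) + δ) * (#F : ℝ) ^ 2 =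
        2 * (μ * (#F : ℝ) ^ 2) + 2 * (γ * (#F : ℝ) ^ 2) +
          3 / (γ * η ^ 2 * N) * (#F : ℝ) ^ 2 + δ * (#F : ℝ) ^ 2 := by ring
    rw [e5]
    linarith
  · have hsub3 : ({p : Fs N × Fs N | R p.1 p.2 ∧ ¬ QuasiRandom ε p.1 p.2} :
        Finset (Fs N × Fs N)) ⊆ (M ×ˢ F) ∪ (F ×ˢ M) ∪ PN ∪ PN' ∪ E11 := by
      intro p hp
      rw [mem_filter] at hp
      exact hsub2 p hp.2.1 (fun h => hp.2.2 (qr_mono h23 h))
    have a1 : (#{p : Fs N × Fs N | R p.1 p.2 ∧ ¬ QuasiRandom ε p.1 p.2} : ℝ) ≤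
        #((M ×ˢ F) ∪ (F ×ˢ M) ∪ PN ∪ PN' ∪ E11) := by
      exact_mod_cast card_le_card hsub3
    have e5 : (2 * μ + 2 * γ + 3 / (γ * η ^ 2 * N) + δ) * (#F : ℝ) ^ 2 =
        2 * (μ * (#F : ℝ) ^ 2) + 2 * (γ * (#F : ℝ) ^ 2) +
          3 / (γ * η ^ 2 * N) * (#F : ℝ) ^ 2 + δ * (#F : ℝ) ^ 2 := by ring
    rw [e5]
    linarith

/-- Pigeonhole on the tolerance ladder. -/
lemma ladder {α : Type*} [DecidableEq α] (F : Finset α) (G : ℕ → Finset α) (hG : ∀ k, G k ⊆ F)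
    (hmono : ∀ k, G k ⊆ G (k + 1)) (K : ℕ) (hK : 0 < K) :
    ∃ k < K, K * #(G (k + 1) \ G k) ≤ #F := by
  by_contra hcon
  push Not at hcon
  have h1 : ∀ j, #(G 0) + ∑ k ∈ range j, #(G (k + 1) \ G k) = #(G j) := by
    intro j
    induction j with
    | zero => simp
    | succ j ih =>
      rw [sum_range_succ, ← add_assoc, ih, add_comm]
      exact card_sdiff_add_card_eq_card (hmono j)
  have h2 : K * #F < K * ∑ k ∈ range K, #(G (k + 1) \ G k) := by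
    rw [mul_sum]
    calc K * #F = ∑ k ∈ range K, #F := by rw [sum_const, card_range, smul_eq_mul]
      _ < _ := by
        apply sum_lt_sum_of_nonempty
        · exact ⟨0, mem_range.2 hK⟩
        · intro k hk
          exact hcon k (mem_range.1 hk)
  have h3 : #F < ∑ k ∈ range K, #(G (k + 1) \ G k) := lt_of_mul_lt_mul_left h2 (Nat.zero_le _)
  have h4 := h1 K
  have h5 := card_le_card (hG K)
  omega

lemma err_aux {ε X n : ℝ} (hε : 0 < ε) (hX : 0 < X) (hn : 0 < n)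
    (h : 32 * 3 / (ε * X) < n) : 3 / (X * (2 * n)) ≤ ε / 16 := by
  rw [div_lt_iff₀ (by positivity)] at h
  rw [div_le_iff₀ (by positivity)]
  have e : ε / 16 * (X * (2 * n)) = (n * (ε * X)) / 8 := by ring
  rw [e]
  linarith

lemma small_aux {ε P m : ℝ} (hε : 0 < ε) (hP : 0 < P) (hm : m < 2 * P) (h : 4 / ε < P) :
    m ≤ ε / 2 * (P * P) := by
  rw [div_lt_iff₀ hε] at h
  have h1 : 4 * P ≤ (P * ε) * P := mul_le_mul_of_nonneg_right h.le hP.le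
  have e : ε / 2 * (P * P) = (P * ε) * P / 2 := by ring
  rw [e]
  linarith

open scoped Classical in
/-- The structure theorem. -/
theorem structure_thm (ε : ℝ) (hε : 0 < ε) : ∃ n₀ : ℕ, ∀ n ≥ n₀, ∀ F : Finset (Fs (2 * n)),
    UnionBasis F → ∃ F0 ⊆ F,
      (∀ A ∈ F0, |(#A : ℝ) - (1 - 1 / √2) * ((2 * n : ℕ) : ℝ)| ≤ ε * ((2 * n : ℕ) : ℝ)) ∧
      (1 - ε) * 4 ^ n ≤ (#F0 : ℝ) ^ 2 / 2 + ((#F : ℝ) - #F0) ^ 2 / 4 ∧
      (#{S : Fs (2 * n) | ∃ A ∈ F, ∃ B ∈ F, A ∪ B = S ∧ ¬ QuasiRandom ε A B} : ℝ) ≤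
        ((#F : ℝ) - #F0) ^ 2 / 4 + ε * 4 ^ n := by
  -- constants
  obtain ⟨K, hK⟩ := exists_nat_gt (32 / ε)
  have hK0 : 0 < K := by
    have : (0 : ℝ) < K := lt_trans (by positivity) hK
    exact_mod_cast this
  have hK0r : (0 : ℝ) < K := by exact_mod_cast hK0
  set ε₀ : ℝ := ε / 3 ^ K with hε₀
  have hε₀0 : 0 < ε₀ := by positivity
  set γ : ℝ := ε / 32 with hγ
  have hγ0 : 0 < γ := by positivity
  set η : ℝ := ε₀ / 5 with hη
  have hη0 : 0 < η := by positivity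
  obtain ⟨n1, hn1⟩ := book_bound ε₀ (ε / 16) hε₀0 (by positivity)
  obtain ⟨n2, hn2⟩ := exists_nat_gt (32 * 3 / (ε * (γ * η ^ 2)))
  obtain ⟨n3, hn3⟩ := exists_nat_gt (4 / ε)
  refine ⟨n1 + n2 + n3 + 1, ?_⟩
  intro n hn F hF
  have hn0 : 0 < n := by omega
  have hn0r : (0 : ℝ) < n := by exact_mod_cast hn0
  have h4n : (4 : ℝ) ^ n = 2 ^ n * 2 ^ n := by rw [← mul_pow]; norm_num
  have h2pos : (0 : ℝ) < 2 ^ n := by positivity
  have h2N : (2 : ℝ) ^ (2 * n) = 4 ^ n := by rw [pow_mul]; norm_num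
  have hNc : ((2 * n : ℕ) : ℝ) = 2 * (n : ℝ) := by push_cast; ring
  obtain ⟨m, hm⟩ : ∃ m : ℝ, m = #F := ⟨_, rfl⟩
  have hm0 : 0 ≤ m := by rw [hm]; positivity
  have hNS4 : (#{S : Fs (2 * n) | ∃ A ∈ F, ∃ B ∈ F, A ∪ B = S ∧ ¬ QuasiRandom ε A B} : ℝ) ≤
      4 ^ n := by
    have := card_le_univ ({S : Fs (2 * n) | ∃ A ∈ F, ∃ B ∈ F, A ∪ B = S ∧ ¬ QuasiRandom ε A B} :
      Finset (Fs (2 * n)))
    rw [Fintype.card_finset, Fintype.card_fin] at this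
    rw [← h2N]
    exact_mod_cast this
  by_cases hbig : 2 * 2 ^ n ≤ m
  · refine ⟨∅, empty_subset _, ?_, ?_, ?_⟩
    · intro A hA
      exact absurd hA (notMem_empty _)
    · rw [card_empty, ← hm]
      have h1 : (2 * (2 : ℝ) ^ n) ^ 2 ≤ m ^ 2 := by gcongr
      have h2 : 0 < ε * 4 ^ n := by positivity
      have e : (2 * (2 : ℝ) ^ n) ^ 2 = 4 * 4 ^ n := by rw [h4n]; ring
      rw [e] at h1
      push_cast
      nlinarith
    · rw [card_empty, ← hm]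
      refine hNS4.trans ?_
      have h1 : (2 * (2 : ℝ) ^ n) ^ 2 ≤ m ^ 2 := by gcongr
      have h2 : 0 < ε * 4 ^ n := by positivity
      have e : (2 * (2 : ℝ) ^ n) ^ 2 = 4 * 4 ^ n := by rw [h4n]; ring
      rw [e] at h1
      push_cast
      nlinarith
  push Not at hbig
  have hm4 : m ^ 2 ≤ 4 * 4 ^ n := by
    have h1 : m ^ 2 ≤ (2 * 2 ^ n) ^ 2 := by gcongr
    have e : (2 * (2 : ℝ) ^ n) ^ 2 = 4 * 4 ^ n := by rw [h4n]; ring
    rw [e] at h1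
    exact h1
  have hsq : 2 ^ (2 * n) ≤ #F ^ 2 := by
    have h1 : (univ : Finset (Finset (Fin (2 * n)))) ⊆ (F ×ˢ F).image (fun p => p.1 ∪ p.2) := by
      intro S _
      obtain ⟨A, hA, B, hB, h⟩ := hF S
      rw [mem_image]
      exact ⟨(A, B), mem_product.2 ⟨hA, hB⟩, h⟩
    have h2 := card_le_card h1
    rw [card_univ, Fintype.card_finset, Fintype.card_fin] at h2
    refine le_trans h2 (le_trans card_image_le ?_)
    rw [card_product, sq]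
  obtain ⟨R, hRF, hRs, hRi, hdet, hE, hEN⟩ := exists_rel ε F hF
  set tol : ℕ → ℝ := fun k => ε₀ * 3 ^ k with htol
  have htol0 : ∀ k, 0 < tol k := fun k => by simp only [htol]; positivity
  have htolm : ∀ k, tol k ≤ tol (k + 1) := by
    intro k
    simp only [htol]
    rw [pow_succ]
    have : 0 < ε₀ * 3 ^ k := by positivity
    nlinarith
  have htol0' : ∀ k, ε₀ ≤ tol k := by
    intro k
    simp only [htol]
    have : (1 : ℝ) ≤ 3 ^ k := one_le_pow₀ (by norm_num)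
    nlinarith
  have htolK : ∀ k ≤ K, tol k ≤ ε := by
    intro k hk
    simp only [htol, hε₀]
    have h1 : (3 : ℝ) ^ k ≤ 3 ^ K := pow_le_pow_right₀ (by norm_num) hk
    rw [div_mul_eq_mul_div, div_le_iff₀ (by positivity)]
    gcongr
  have hlevm : ∀ k, lev F R γ (tol k) ⊆ lev F R γ (tol (k + 1)) := by
    intro k A hA
    rw [lev, mem_filter] at hA ⊢
    refine ⟨hA.1, hA.2.trans ?_⟩
    exact_mod_cast qdeg_mono R (htolm k) A
  obtain ⟨k, hkK, hk⟩ := ladder F (fun k => lev F R γ (tol k)) (fun k => filter_subset _ _)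
    hlevm K hK0
  have hmid : (#(lev F R γ (tol (k + 1)) \ lev F R γ (tol k)) : ℝ) ≤ (ε / 32) * #F := by
    have h1 : (K : ℝ) * #(lev F R γ (tol (k + 1)) \ lev F R γ (tol k)) ≤ #F := by
      exact_mod_cast hk
    have h2 : 32 ≤ K * ε := by
      rw [div_lt_iff₀ hε] at hK
      exact hK.le
    have h3 : (0 : ℝ) ≤ #(lev F R γ (tol (k + 1)) \ lev F R γ (tol k)) := Nat.cast_nonneg _
    have h4 : 32 * (#(lev F R γ (tol (k + 1)) \ lev F R γ (tol k)) : ℝ) ≤ ε * #F := by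
      calc 32 * (#(lev F R γ (tol (k + 1)) \ lev F R γ (tol k)) : ℝ)
          ≤ (K * ε) * #(lev F R γ (tol (k + 1)) \ lev F R γ (tol k)) :=
            mul_le_mul_of_nonneg_right h2 h3
        _ = ε * (K * #(lev F R γ (tol (k + 1)) \ lev F R γ (tol k))) := by ring
        _ ≤ ε * #F := mul_le_mul_of_nonneg_left h1 hε.le
    linarith
  have hbook := hn1 (2 * n) (by omega) F
    (fun A B => R A B ∧ ¬ QuasiRandom (tol (k + 1)) A B)
    (fun A B h => hRF A B h.1) (fun A B h => ⟨hRs _ _ h.1, fun hq => h.2 (qr_symm hq)⟩)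
    (fun A h => hRi A h.1) (fun A B A' B' h h' => hdet A B A' B' h.1 h'.1)
    (fun A B h hq => h.2 (qr_mono (htol0' _) hq)) hsq
    (F \ lev F R γ (tol (k + 1))) sdiff_subset
  have hN2 : 0 < 2 * n := by omega
  have h12 : 2 * tol k + 5 * η ≤ tol (k + 1) := by
    have h1 := htol0' k
    simp only [htol, hη] at h1 ⊢
    rw [pow_succ]
    nlinarith
  obtain ⟨c1, c2⟩ := core (μ := ε / 32) (δ := ε / 16) hRF hRs hdet (htol0 k) hη0 hγ0 hN2 hsq h12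
    (htolK (k + 1) (by omega)) hmid (by convert hbook)
  obtain ⟨f0, hf0⟩ : ∃ f0 : ℝ, f0 = #(lev F R γ (tol k)) := ⟨_, rfl⟩
  obtain ⟨f1, hf1⟩ : ∃ f1 : ℝ, f1 = #(F \ lev F R γ (tol (k + 1))) := ⟨_, rfl⟩
  rw [← hf0, ← hf1, ← hm] at c1
  rw [← hf1, ← hm] at c2
  rw [h2N, ← hm] at hE
  rw [← hm] at hEN
  have hf1m : f1 ^ 2 ≤ (m - f0) ^ 2 := by
    have h1 : #(F \ lev F R γ (tol (k + 1))) + #(lev F R γ (tol k)) ≤ #F := by
      have a1 := card_sdiff_add_card_eq_card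
        (show lev F R γ (tol (k + 1)) ⊆ F from filter_subset _ _)
      have a2 := card_le_card (hlevm k)
      omega
    have h2 : f1 + f0 ≤ m := by
      rw [hf0, hf1, hm]
      exact_mod_cast h1
    have h3 : 0 ≤ f1 := by rw [hf1]; positivity
    have h4 : f1 ≤ m - f0 := by linarith
    gcongr
  have herr : 2 * (ε / 32) + 2 * γ + 3 / (γ * η ^ 2 * ((2 * n : ℕ) : ℝ)) + ε / 16 ≤ ε / 4 := by
    have h1 : 3 / (γ * η ^ 2 * ((2 * n : ℕ) : ℝ)) ≤ ε / 16 := by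
      have h2 : (n2 : ℝ) ≤ n := by exact_mod_cast (by omega : n2 ≤ n)
      have h3 := err_aux (X := γ * η ^ 2) hε (by positivity) hn0r (lt_of_lt_of_le hn2 h2)
      rw [hNc]
      exact h3
    rw [hγ] at h1 ⊢
    linarith
  have hm2 : (0 : ℝ) ≤ m ^ 2 := by positivity
  have herr2 : (2 * (ε / 32) + 2 * γ + 3 / (γ * η ^ 2 * ((2 * n : ℕ) : ℝ)) + ε / 16) * m ^ 2 ≤
      ε * 4 ^ n := by
    calc (2 * (ε / 32) + 2 * γ + 3 / (γ * η ^ 2 * ((2 * n : ℕ) : ℝ)) + ε / 16) * m ^ 2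
        ≤ ε / 4 * m ^ 2 := mul_le_mul_of_nonneg_right herr hm2
      _ ≤ ε / 4 * (4 * 4 ^ n) := by gcongr
      _ = ε * 4 ^ n := by ring
  have hmsmall : m ≤ ε / 2 * 4 ^ n := by
    have h1 : 4 / ε < 2 ^ n := by
      have h2 : (n3 : ℝ) ≤ n := by exact_mod_cast (by omega : n3 ≤ n)
      have h3 : (n : ℝ) ≤ 2 ^ n := by exact_mod_cast (Nat.lt_two_pow_self).le
      linarith
    rw [h4n]
    exact small_aux hε h2pos hbig h1
  refine ⟨lev F R γ (tol k), filter_subset _ _, ?_, ?_, ?_⟩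
  · intro A hA
    rw [lev, mem_filter] at hA
    have hpos : 0 < qdeg R (tol k) A := by
      have h1 : 0 < m := by
        obtain ⟨B, hB, _⟩ := hF ∅
        have : 0 < #F := card_pos.2 ⟨B, hB⟩
        rw [hm]; exact_mod_cast this
      have h2 : (0 : ℝ) < qdeg R (tol k) A := by
        refine lt_of_lt_of_le ?_ hA.2
        rw [← hm]
        positivity
      exact_mod_cast h2
    unfold qdeg at hpos
    obtain ⟨B, hB⟩ := card_pos.1 hpos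
    rw [mem_filter] at hB
    exact (qr_mono (htolK k (by omega)) hB.2.2).1
  · rw [← hf0, ← hm]
    linarith
  · rw [← hf0, ← hm]
    linarith

end Pool.Agent.Helper19.UB
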