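import Pool.Agent.Helper19.UB.Cherry

/-! MP_f69198_co: structure theorem for union bases. -/

namespace Pool.Agent.Helper19.UB

open Finset Pool.Agent.Lead.UB

open Pool.Agent.Helper43.UB (qr_symm)

open scoped Classical in
/-- The representation graph. -/
theorem exists_rel {N : ℕ} (ε : ℝ) (F : Finset (Fs N)) (hF : UnionBasis F) :
    ∃ R : Fs N → Fs N → Prop,
      (∀ A B, R A B → A ∈ F ∧ B ∈ F) ∧ (∀ A B, R A B → R B A) ∧ (∀ A, ¬ R A A) ∧
      (∀ A B A' B', R A B → R A' B' → A ∪ B = A' ∪ B' →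
        (A = A' ∧ B = B') ∨ (A = B' ∧ B = A')) ∧
      2 * ((2 : ℝ) ^ N - #F) ≤ (#{p : Fs N × Fs N | R p.1 p.2} : ℝ) ∧
      2 * ((#{S : Fs N | ∃ A ∈ F, ∃ B ∈ F, A ∪ B = S ∧ ¬ QuasiRandom ε A B} : ℝ) - #F) ≤
        (#{p : Fs N × Fs N | R p.1 p.2 ∧ ¬ QuasiRandom ε p.1 p.2} : ℝ) := by
  set NS : Finset (Fs N) := {S | ∃ A ∈ F, ∃ B ∈ F, A ∪ B = S ∧ ¬ QuasiRandom ε A B} with hNS
  have hrep : ∀ S : Fs N, ∃ p : Fs N × Fs N,
      p.1 ∈ F ∧ p.2 ∈ F ∧ p.1 ∪ p.2 = S ∧ (S ∈ NS → ¬ QuasiRandom ε p.1 p.2) := by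
    intro S
    by_cases hS : S ∈ NS
    · rw [hNS, mem_filter] at hS
      obtain ⟨A, hA, B, hB, h1, h2⟩ := hS.2
      exact ⟨(A, B), hA, hB, h1, fun _ => h2⟩
    · obtain ⟨A, hA, B, hB, h⟩ := hF S
      exact ⟨(A, B), hA, hB, h, fun h => absurd h hS⟩
  choose rep hrepS using hrep
  obtain ⟨R, hR⟩ : ∃ R : Fs N → Fs N → Prop, ∀ A B, R A B ↔
      (A ≠ B ∧ ∃ S, rep S = (A, B) ∨ rep S = (B, A)) := ⟨_, fun _ _ => Iff.rfl⟩
  have hRF : ∀ A B, R A B → A ∈ F ∧ B ∈ F := by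
    intro A B hAB
    rw [hR] at hAB
    obtain ⟨_, S, h | h⟩ := hAB
    · have := hrepS S
      rw [h] at this
      exact ⟨this.1, this.2.1⟩
    · have := hrepS S
      rw [h] at this
      exact ⟨this.2.1, this.1⟩
  have hRsymm : ∀ A B, R A B → R B A := by
    intro A B hAB
    rw [hR] at hAB ⊢
    obtain ⟨hne, S, h⟩ := hAB
    exact ⟨hne.symm, S, h.symm⟩
  have hRU : ∀ A B, R A B → (rep (A ∪ B) = (A, B) ∨ rep (A ∪ B) = (B, A)) := by
    intro A B hAB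
    rw [hR] at hAB
    obtain ⟨_, S, h⟩ := hAB
    have : A ∪ B = S := by
      have h1 := (hrepS S).2.2.1
      rcases h with h | h
      · rw [h] at h1; exact h1
      · rw [h] at h1; rw [union_comm]; exact h1
    rw [this]; exact h
  have hRdet : ∀ A B A' B', R A B → R A' B' → A ∪ B = A' ∪ B' →
      (A = A' ∧ B = B') ∨ (A = B' ∧ B = A') := by
    intro A B A' B' h h' hU
    have h1 := hRU A B h
    have h2 := hRU A' B' h'
    rw [hU] at h1
    rcases h1 with h1 | h1 <;> rcases h2 with h2 | h2 <;> rw [h1] at h2 <;>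
      simp only [Prod.mk.injEq] at h2
    · exact Or.inl h2
    · exact Or.inr h2
    · exact Or.inr ⟨h2.2, h2.1⟩
    · exact Or.inl ⟨h2.2, h2.1⟩
  have hcount : ∀ Q : Finset (Fs N),
      2 * ((#Q : ℝ) - #F) ≤ (#{p : Fs N × Fs N | R p.1 p.2 ∧ p.1 ∪ p.2 ∈ Q} : ℝ) := by
    intro Q
    set Q1 := Q.filter (fun S => (rep S).1 ≠ (rep S).2) with hQ1
    set Q0 := Q.filter (fun S => ¬ (rep S).1 ≠ (rep S).2) with hQ0
    have h1 : #Q0 ≤ #F := by
      apply card_le_card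
      intro S hS
      rw [hQ0, mem_filter] at hS
      obtain ⟨hS1, hS2⟩ := hS
      push Not at hS2
      obtain ⟨k1, k2, k3, k4⟩ := hrepS S
      rw [← hS2, union_self] at k3
      rw [← k3]; exact k1
    have h2 : #Q1 + #Q0 = #Q := card_filter_add_card_filter_not _
    have h3 : #(Q1 ×ˢ (univ : Finset Bool)) ≤
        #{p : Fs N × Fs N | R p.1 p.2 ∧ p.1 ∪ p.2 ∈ Q} := by
      apply card_le_card_of_injOn
        (fun x : Fs N × Bool => if x.2 then rep x.1 else ((rep x.1).2, (rep x.1).1))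
      · rintro ⟨S, b⟩ hx
        rw [mem_coe, mem_product, hQ1, mem_filter] at hx
        obtain ⟨⟨hS1, hS2⟩, _⟩ := hx
        obtain ⟨k1, k2, k3, k4⟩ := hrepS S
        rw [mem_coe, mem_filter]
        cases b with
        | true =>
          refine ⟨mem_univ _, (hR _ _).2 ⟨hS2, S, Or.inl rfl⟩, ?_⟩
          simp only [if_true]
          rw [k3]; exact hS1
        | false =>
          refine ⟨mem_univ _, (hR _ _).2 ⟨hS2.symm, S, Or.inr rfl⟩, ?_⟩
          simp only [Bool.false_eq_true, if_false]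
          rw [union_comm, k3]; exact hS1
      · rintro ⟨S, b⟩ hx ⟨S', b'⟩ hx' he
        rw [mem_coe, mem_product, hQ1, mem_filter] at hx hx'
        obtain ⟨⟨hS1, hS2⟩, _⟩ := hx
        obtain ⟨⟨hS1', hS2'⟩, _⟩ := hx'
        obtain ⟨k1, k2, k3, k4⟩ := hrepS S
        obtain ⟨k1', k2', k3', k4'⟩ := hrepS S'
        simp only at hS2 hS2' k3 k3' he
        cases b <;> cases b' <;> simp only [Bool.false_eq_true, if_false, if_true, Prod.ext_iff] at he
        · have : S = S' := by rw [← k3, ← k3', he.1, he.2]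
          rw [this]
        · exfalso
          have : S = S' := by rw [← k3, ← k3', he.1, he.2, union_comm]
          subst this
          exact hS2 he.2
        · exfalso
          have : S = S' := by rw [← k3, ← k3', he.1, he.2, union_comm]
          subst this
          exact hS2 he.1
        · have : S = S' := by rw [← k3, ← k3', he.1, he.2]
          rw [this]
    have h4 : #(Q1 ×ˢ (univ : Finset Bool)) = #Q1 * 2 := by simp
    have h7 : #Q * 2 ≤ #{p : Fs N × Fs N | R p.1 p.2 ∧ p.1 ∪ p.2 ∈ Q} + 2 * #F := by omega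
    have h8 : (#Q : ℝ) * 2 ≤ (#{p : Fs N × Fs N | R p.1 p.2 ∧ p.1 ∪ p.2 ∈ Q} : ℝ) + 2 * #F := by
      exact_mod_cast h7
    linarith
  refine ⟨R, hRF, hRsymm, fun A h => ((hR _ _).1 h).1 rfl, hRdet, ?_, ?_⟩
  · have h1 := hcount univ
    have h2 : ((#(univ : Finset (Fs N)) : ℕ) : ℝ) = 2 ^ N := by
      rw [card_univ, Fintype.card_finset, Fintype.card_fin]
      push_cast
      rfl
    rw [h2] at h1
    simpa using h1
  · refine (hcount NS).trans ?_
    rw [Nat.cast_le]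
    apply card_le_card
    intro p hp
    rw [mem_filter] at hp ⊢
    refine ⟨mem_univ _, hp.2.1, ?_⟩
    have h1 := (hrepS (p.1 ∪ p.2)).2.2.2 hp.2.2
    rcases hRU p.1 p.2 hp.2.1 with h | h
    · rw [h] at h1; exact h1
    · rw [h] at h1; exact fun hq => h1 (qr_symm hq)

open scoped Classical in
/-- In any part of the family, at most half of the pairs are edges that are not quasi-random. -/
theorem book_bound (ε δ : ℝ) (hε : 0 < ε) (hδ : 0 < δ) : ∃ n₁ : ℕ, ∀ N ≥ n₁,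
    ∀ (F : Finset (Fs N)) (R : Fs N → Fs N → Prop),
      (∀ A B, R A B → A ∈ F ∧ B ∈ F) → (∀ A B, R A B → R B A) → (∀ A, ¬ R A A) →
      (∀ A B A' B', R A B → R A' B' → A ∪ B = A' ∪ B' →
        (A = A' ∧ B = B') ∨ (A = B' ∧ B = A')) →
      (∀ A B, R A B → ¬ QuasiRandom ε A B) → 2 ^ N ≤ #F ^ 2 →
      ∀ W ⊆ F, (#{p : Fs N × Fs N | R p.1 p.2 ∧ p.1 ∈ W ∧ p.2 ∈ W} : ℝ) ≤
        (#W : ℝ) ^ 2 / 2 + δ * (#F : ℝ) ^ 2 := by
  obtain ⟨η, hη, t, hbook⟩ := Pool.Agent.Helper43.UB.stmtBook ε hε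
  set c : ℝ := min δ 1 with hc
  have hc0 : 0 < c := lt_min hδ one_pos
  have hc1 : c ≤ 1 := min_le_right _ _
  have hcδ : c ≤ δ := min_le_left _ _
  obtain ⟨n2, hn2⟩ := exists_nat_gt ((t + 2 : ℝ) ^ 4 * 16 / (η ^ 2 * ((2 * δ) ^ t * c ^ (t + 2))))
  refine ⟨n2 + 1, ?_⟩
  intro N hN F R hRF hRsymm hRirr hRdet hRqr hsq W hW
  by_contra hcon
  push Not at hcon
  have hN0 : 0 < N := by omega
  set m : ℝ := (#F : ℝ) with hm
  have hm0 : 0 < m := by
    have : 0 < #F := by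
      by_contra h0
      have h1 : #F = 0 := by omega
      rw [h1] at hsq
      simp at hsq
    rw [hm]; exact_mod_cast this
  set V : Type := {A : Fs N // A ∈ W} with hV
  have hVcard : Fintype.card V = #W := Fintype.card_coe W
  have hE : (#{p : Fs N × Fs N | R p.1 p.2 ∧ p.1 ∈ W ∧ p.2 ∈ W} : ℝ) ≤
      (#{p : V × V | R p.1.1 p.2.1} : ℝ) := by
    rw [Nat.cast_le]
    have h1 : ({p : Fs N × Fs N | R p.1 p.2 ∧ p.1 ∈ W ∧ p.2 ∈ W} : Finset (Fs N × Fs N)) ⊆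
        (univ.filter fun p : V × V => R p.1.1 p.2.1).image (fun p => (p.1.1, p.2.1)) := by
      intro p hp
      rw [mem_filter] at hp
      rw [mem_image]
      exact ⟨(⟨p.1, hp.2.2.1⟩, ⟨p.2, hp.2.2.2⟩), mem_filter.2 ⟨mem_univ _, hp.2.1⟩, rfl⟩
    exact (card_le_card h1).trans card_image_le
  have hEw : (#{p : Fs N × Fs N | R p.1 p.2 ∧ p.1 ∈ W ∧ p.2 ∈ W} : ℝ) ≤ (#W : ℝ) ^ 2 := by
    have h1 : ({p : Fs N × Fs N | R p.1 p.2 ∧ p.1 ∈ W ∧ p.2 ∈ W} : Finset (Fs N × Fs N)) ⊆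
        W ×ˢ W := by
      intro p hp
      rw [mem_filter] at hp
      exact mem_product.2 hp.2.2
    have h2 := card_le_card h1
    rw [card_product, ← sq] at h2
    exact_mod_cast h2
  have hwm : (#W : ℝ) ≤ m := by
    rw [hm]; exact_mod_cast card_le_card hW
  have hw0 : (0 : ℝ) ≤ #W := Nat.cast_nonneg _
  have hcw : c * m ≤ #W := by
    have h1 : δ * m ^ 2 ≤ (#W : ℝ) ^ 2 := by nlinarith
    have h2 : (c * m) ^ 2 ≤ (#W : ℝ) ^ 2 := by
      refine le_trans ?_ h1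
      have : (c * m) ^ 2 = c * c * m ^ 2 := by ring
      rw [this]
      have : c * c ≤ δ := by nlinarith
      gcongr
    exact le_of_sq_le_sq h2 hw0
  have hdens : (Fintype.card V : ℝ) ^ 2 * (1 / 2 + 2 * (δ / 2)) ≤
      (#{p : V × V | R p.1.1 p.2.1} : ℝ) := by
    rw [hVcard]
    refine le_trans ?_ (hcon.le.trans hE)
    have : (#W : ℝ) ^ 2 ≤ m ^ 2 := by gcongr
    nlinarith
  have hb := Pool.Agent.Helper43.UB.stmtCount V (fun x y => R x.1 y.1)
    (fun x y h => hRsymm _ _ h) (fun x h => hRirr _ h) (δ / 2) (by positivity) t hdens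
  rw [hVcard] at hb
  set X : Finset ((Fs N × Fs N) × (Fin t → Fs N)) :=
    {q | R q.1.1 q.1.2 ∧ (∀ i, R (q.2 i) q.1.1 ∧ R (q.2 i) q.1.2)} with hX
  have hbX : (#{q : (V × V) × (Fin t → V) | R q.1.1.1 q.1.2.1 ∧
        ∀ i, R (q.2 i).1 q.1.1.1 ∧ R (q.2 i).1 q.1.2.1} : ℝ) ≤ #X := by
    have : #{q : (V × V) × (Fin t → V) | R q.1.1.1 q.1.2.1 ∧
        ∀ i, R (q.2 i).1 q.1.1.1 ∧ R (q.2 i).1 q.1.2.1} ≤ #X := by
      apply card_le_card_of_injOn (fun q => ((q.1.1.1, q.1.2.1), fun i => (q.2 i).1))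
      · intro q hq
        rw [mem_coe, mem_filter] at hq
        rw [mem_coe, hX, mem_filter]
        exact ⟨mem_univ _, hq.2⟩
      · rintro ⟨⟨a, b⟩, c⟩ _ ⟨⟨a', b'⟩, c'⟩ _ he
        simp only [Prod.mk.injEq] at he
        obtain ⟨⟨h1, h2⟩, h3⟩ := he
        have e1 : a = a' := Subtype.ext h1
        have e2 : b = b' := Subtype.ext h2
        have e3 : c = c' := by
          funext i
          exact Subtype.ext (congrFun h3 i)
        rw [e1, e2, e3]
    exact_mod_cast this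
  have hnt : ∀ q ∈ X, ¬ TypicalBook η q.1.1 q.1.2 q.2 := by
    intro q hq htb
    rw [hX, mem_filter] at hq
    exact hRqr _ _ hq.2.1 (hbook N hN0 _ _ _ htb)
  have hbad := Pool.Agent.Lead.UB.stmtBad N t F R hRF hRsymm hRdet η hη hN0 hsq
    Pool.Agent.Helper43.UB.stmtCheb X
    (fun q hq => by rw [hX, mem_filter] at hq; exact hq.2) hnt
  have hfin := le_trans (le_trans hb hbX) hbad
  rw [← hm] at hfin
  have hpow : 0 < m ^ (t + 2) := by positivity
  have e4 : 4 * (δ / 2) = 2 * δ := by ring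
  rw [e4] at hfin
  have hlow : (2 * δ) ^ t * c ^ (t + 2) / 2 * m ^ (t + 2) ≤ (2 * δ) ^ t / 2 * (#W : ℝ) ^ (t + 2) := by
    have h1 : (c * m) ^ (t + 2) ≤ (#W : ℝ) ^ (t + 2) := by gcongr
    rw [mul_pow] at h1
    have h2 : (0 : ℝ) ≤ (2 * δ) ^ t / 2 := by positivity
    calc (2 * δ) ^ t * c ^ (t + 2) / 2 * m ^ (t + 2)
        = (2 * δ) ^ t / 2 * (c ^ (t + 2) * m ^ (t + 2)) := by ring
      _ ≤ _ := mul_le_mul_of_nonneg_left h1 h2
  have hfin2 := le_of_mul_le_mul_right (hlow.trans hfin) hpow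
  have hNR : ((t + 2 : ℝ) ^ 4 * 16 / (η ^ 2 * ((2 * δ) ^ t * c ^ (t + 2)))) < N := by
    have : (n2 : ℝ) ≤ N := by exact_mod_cast (by omega : n2 ≤ N)
    linarith
  have hN0' : (0 : ℝ) < N := by exact_mod_cast hN0
  rw [div_lt_iff₀ (by positivity)] at hNR
  rw [le_div_iff₀ (by positivity)] at hfin2
  nlinarith

end Pool.Agent.Helper19.UB
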